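import Pool.Agent.H2.ED.Targets3

/-!
# DSK: finitely many elements are in an algebraically closed subfield of finite transcendence
degree
-/

set_option autoImplicit false

open MvPolynomial Pool.Agent.H2.ED Pool.Agent.H18.VP

namespace Pool.Agent.H1.ED

theorem pf_DSK : T_DSK := by
  classical
  intro k _ _ _ s
  let M : IntermediateField ℚ k := IntermediateField.adjoin ℚ (s : Set k)
  let k₀ : IntermediateField M k := algebraicClosure M k
  have hcl : IsAlgClosed k₀ := (algebraicClosure.isAlgClosure M k).1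
  have hMk : ∀ a ∈ M, a ∈ k₀ := fun a ha => k₀.algebraMap_mem ⟨a, ha⟩
  have hsM : ∀ a ∈ s, a ∈ M := fun a ha => IntermediateField.subset_adjoin ℚ _ ha
  refine ⟨k₀, inferInstance, hcl, inferInstance, inferInstance, ?_, ?_⟩
  · let t : Finset k₀ := s.attach.image fun a => ⟨a.1, hMk _ (hsM _ a.2)⟩
    refine ⟨t, ?_⟩
    let φ : k₀ →ₐ[ℚ] k := (algebraMap k₀ k).toRatAlgHom
    have hφt : φ '' (t : Set k₀) = (s : Set k) := by
      ext a
      constructor
      · rintro ⟨b, hb, rfl⟩
        obtain ⟨c, -, rfl⟩ := Finset.mem_image.1 (Finset.mem_coe.1 hb)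
        exact c.2
      · intro ha
        exact ⟨⟨a, hMk _ (hsM _ ha)⟩, Finset.mem_coe.2 (Finset.mem_image.2
          ⟨⟨a, ha⟩, Finset.mem_attach _ _, rfl⟩), rfl⟩
    have hmap : (IntermediateField.adjoin ℚ (t : Set k₀)).map φ = M := by
      rw [IntermediateField.adjoin_map, hφt]
    let N : IntermediateField ℚ k₀ := IntermediateField.adjoin ℚ (t : Set k₀)
    let f : N →+* M := ((algebraMap k₀ k).comp (algebraMap N k₀)).codRestrict M (by
      intro x
      exact (SetLike.ext_iff.1 hmap _).1 ⟨x.1, x.2, rfl⟩)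
    have hf : Function.Surjective f := by
      intro m
      have hm : (m : k) ∈ (IntermediateField.adjoin ℚ (t : Set k₀)).map φ :=
        (SetLike.ext_iff.1 hmap _).2 m.2
      obtain ⟨x, hx, hxm⟩ := hm
      exact ⟨⟨x, hx⟩, Subtype.ext hxm⟩
    refine ⟨fun x => ?_⟩
    have hx : IsAlgebraic M x := (algebraicClosure.isAlgebraic M k).isAlgebraic x
    exact IsAlgebraic.of_ringHom_of_comp_eq f (RingHom.id k₀) hx hf Function.injective_id
      (by ext y; rfl)
  · intro a ha
    exact ⟨⟨a, hMk _ (hsM _ ha)⟩, rfl⟩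

end Pool.Agent.H1.ED
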